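import Pool.Agent.W650.HL.Stm

/-!
# The pointwise logarithmic inequality for nonpositive arguments
-/

set_option autoImplicit false

namespace Pool.W481.HL

open Pool.W650.HL

theorem mono_aux (f f' : ℝ → ℝ) (c : ℝ) (h0 : f 0 = 0)
    (hd : ∀ x ∈ Set.Icc 0 c, HasDerivAt f (f' x) x) (hn : ∀ x ∈ Set.Icc 0 c, 0 ≤ f' x)
    (x : ℝ) (hx : x ∈ Set.Icc 0 c) : 0 ≤ f x := by
  have hm : MonotoneOn f (Set.Icc 0 c) := by
    refine monotoneOn_of_deriv_nonneg (convex_Icc 0 c)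
      (fun x hx => (hd x hx).continuousAt.continuousWithinAt)
      (fun x hx => (hd x (interior_subset hx)).differentiableAt.differentiableWithinAt)
      (fun x hx => ?_)
    rw [(hd x (interior_subset hx)).deriv]
    exact hn x (interior_subset hx)
  have h := hm (Set.left_mem_Icc.2 (hx.1.trans hx.2)) hx hx.1
  rw [h0] at h
  exact h

theorem log1 (z : ℝ) (hz : 0 ≤ z) :
    z - z ^ 2 / 2 + z ^ 3 / 3 - z ^ 4 / 4 ≤ Real.log (1 + z) := by
  have h := mono_aux (fun t => Real.log (1 + t) - (t - t ^ 2 / 2 + t ^ 3 / 3 - t ^ 4 / 4))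
    (fun t => 1 / (1 + t) - (1 - t + t ^ 2 - t ^ 3)) z (by simp) ?_ ?_ z ⟨hz, le_refl z⟩
  · linarith
  · intro t ht
    have h1 : (1 : ℝ) + t ≠ 0 := by have := ht.1; positivity
    have h2 : HasDerivAt (fun t : ℝ => 1 + t) 1 t := by
      simpa using (hasDerivAt_id t).const_add 1
    have h3 := h2.log h1
    have h4 : HasDerivAt (fun t : ℝ => t - t ^ 2 / 2 + t ^ 3 / 3 - t ^ 4 / 4)
        (1 - t + t ^ 2 - t ^ 3) t := by
      have e1 := hasDerivAt_id' t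
      have e2 := (hasDerivAt_pow 2 t).div_const 2
      have e3 := (hasDerivAt_pow 3 t).div_const 3
      have e4 := (hasDerivAt_pow 4 t).div_const 4
      refine (((e1.sub e2).add e3).sub e4).congr_deriv ?_
      norm_num
    exact h3.sub h4
  · intro t ht
    have h1 : (0 : ℝ) < 1 + t := by linarith [ht.1]
    have h2 : 1 / (1 + t) - (1 - t + t ^ 2 - t ^ 3) = t ^ 4 / (1 + t) := by
      field_simp
      ring
    rw [h2]
    positivity

theorem log2 (w : ℝ) (hw : 0 ≤ w) (hw2 : w ≤ 3 / 8) :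
    -w - w ^ 2 / 2 - w ^ 3 / 3 - 2 / 5 * w ^ 4 ≤ Real.log (1 - w) := by
  have h := mono_aux (fun t => Real.log (1 - t) + (t + t ^ 2 / 2 + t ^ 3 / 3 + 2 / 5 * t ^ 4))
    (fun t => -1 / (1 - t) + (1 + t + t ^ 2 + 8 / 5 * t ^ 3)) (3 / 8) (by simp) ?_ ?_ w ⟨hw, hw2⟩
  · linarith
  · intro t ht
    have h1 : (1 : ℝ) - t ≠ 0 := by
      have := ht.2
      have h5 : (0 : ℝ) < 1 - t := by linarith
      exact h5.ne'
    have h2 : HasDerivAt (fun t : ℝ => 1 - t) (-1) t := by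
      simpa using (hasDerivAt_id t).const_sub 1
    have h3 := h2.log h1
    have h4 : HasDerivAt (fun t : ℝ => t + t ^ 2 / 2 + t ^ 3 / 3 + 2 / 5 * t ^ 4)
        (1 + t + t ^ 2 + 8 / 5 * t ^ 3) t := by
      have e1 := hasDerivAt_id' t
      have e2 := (hasDerivAt_pow 2 t).div_const 2
      have e3 := (hasDerivAt_pow 3 t).div_const 3
      have e4 := (hasDerivAt_pow 4 t).const_mul (2 / 5 : ℝ)
      refine (((e1.add e2).add e3).add e4).congr_deriv ?_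
      norm_num
      ring
    exact h3.add h4
  · intro t ht
    have h5 : (0 : ℝ) < 1 - t := by linarith [ht.2]
    have h2 : -1 / (1 - t) + (1 + t + t ^ 2 + 8 / 5 * t ^ 3) =
        t ^ 3 * (8 / 5 * (1 - t) - 1) / (1 - t) := by
      field_simp
      ring
    rw [h2]
    have h3 : 0 ≤ 8 / 5 * (1 - t) - 1 := by linarith [ht.2]
    have h4 : 0 ≤ t ^ 3 := pow_nonneg ht.1 3
    positivity

theorem log0 (v : ℝ) (hv : 0 ≤ v) : v - v ^ 2 / 2 ≤ Real.log (1 + v) := by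
  have h := mono_aux (fun t => Real.log (1 + t) - (t - t ^ 2 / 2))
    (fun t => 1 / (1 + t) - (1 - t)) v (by simp) ?_ ?_ v ⟨hv, le_refl v⟩
  · linarith
  · intro t ht
    have h1 : (1 : ℝ) + t ≠ 0 := by have := ht.1; positivity
    have h2 : HasDerivAt (fun t : ℝ => 1 + t) 1 t := by
      simpa using (hasDerivAt_id t).const_add 1
    have h3 := h2.log h1
    have h4 : HasDerivAt (fun t : ℝ => t - t ^ 2 / 2) (1 - t) t := by
      have e1 := hasDerivAt_id' t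
      have e2 := (hasDerivAt_pow 2 t).div_const 2
      refine (e1.sub e2).congr_deriv ?_
      norm_num
    exact h3.sub h4
  · intro t ht
    have h1 : (0 : ℝ) < 1 + t := by linarith [ht.1]
    have h2 : 1 / (1 + t) - (1 - t) = t ^ 2 / (1 + t) := by
      field_simp
      ring
    rw [h2]
    positivity

theorem cubic (b v z w : ℝ) (hb : 0 ≤ b) (hb2 : b ≤ 3 / 5)
    (hw : 0 ≤ w) (hw2 : w ≤ 3 / 8) (hz : z ≤ b) (hzw : (1 + 5 * b / 8) * w ≤ z) :
    0 ≤ 4 / 3 * z ^ 3 - z ^ 4 - 2 / 3 * w ^ 3 - 4 / 5 * w ^ 4 := by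
  have hz0 : 0 ≤ z := le_trans (by positivity) hzw
  have h1 : ((1 + 5 * b / 8) * w) ^ 3 ≤ z ^ 3 := pow_le_pow_left₀ (by positivity) hzw 3
  have hw3 : 0 ≤ w ^ 3 := by positivity
  have h2 : (1 + 15 * b / 8) * w ^ 3 ≤ ((1 + 5 * b / 8) * w) ^ 3 := by
    rw [mul_pow]
    apply mul_le_mul_of_nonneg_right _ hw3
    nlinarith [pow_nonneg hb 3, pow_nonneg hb 2]
  have h3 : (1 + 15 * b / 8) * w ^ 3 ≤ z ^ 3 := h2.trans h1
  have h4 : (29 / 30 : ℝ) ≤ (4 / 3 - b) * (1 + 15 * b / 8) := by nlinarith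
  have h5 : (29 / 30 : ℝ) * w ^ 3 ≤ (4 / 3 - z) * z ^ 3 := by
    calc (29 / 30 : ℝ) * w ^ 3 ≤ ((4 / 3 - b) * (1 + 15 * b / 8)) * w ^ 3 :=
          mul_le_mul_of_nonneg_right h4 hw3
      _ = (4 / 3 - b) * ((1 + 15 * b / 8) * w ^ 3) := by ring
      _ ≤ (4 / 3 - b) * z ^ 3 := mul_le_mul_of_nonneg_left h3 (by linarith)
      _ ≤ (4 / 3 - z) * z ^ 3 := mul_le_mul_of_nonneg_right (by linarith) (by positivity)
  have h6 : (2 / 3 + 4 / 5 * w) * w ^ 3 ≤ 29 / 30 * w ^ 3 :=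
    mul_le_mul_of_nonneg_right (by linarith) hw3
  nlinarith

theorem quad (b v : ℝ) (hb : 0 ≤ b) (hb2 : b ≤ 3 / 5) (hv : 0 ≤ v)
    (hvb : v * (8 + 5 * b) ≤ b * (3 - 5 * b)) :
    2 / (1 + v) ^ 2 + 1 / (1 + b) ^ 2 ≤
      (4 - 2 * v - (3 / 8 * (1 + b + v)) ^ 4 / (1 + b)) / (1 + b) := by
  have hbv : b + v ≤ 3 / 5 := by
    by_contra hcon
    push Not at hcon
    nlinarith [mul_pos (show (0 : ℝ) < 8 + 5 * b by linarith) (sub_pos.2 hcon)]
  have hv2 : v ≤ 1 / 10 := by nlinarith [mul_nonneg hv hb, sq_nonneg (b - 3 / 10)]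
  have hK : (3 / 8 * (1 + b + v)) ^ 4 ≤ 81 / 625 := by
    have h1 : 3 / 8 * (1 + b + v) ≤ 3 / 5 := by linarith
    calc (3 / 8 * (1 + b + v)) ^ 4 ≤ (3 / 5) ^ 4 := pow_le_pow_left₀ (by positivity) h1 4
      _ = 81 / 625 := by norm_num
  have h1v : (0 : ℝ) < 1 + v := by linarith
  have h1b : (0 : ℝ) < 1 + b := by linarith
  have h1 : 1 / (1 + v) ^ 2 ≤ 1 - 2 * v + 3 * v ^ 2 := by
    rw [div_le_iff₀ (by positivity)]
    nlinarith [pow_nonneg hv 3, pow_nonneg hv 4]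
  have h2 : (1 + b) ^ 2 * (1 - 2 * v + 3 * v ^ 2) ≤ (1 + b) ^ 2 - v * (1 + b) := by
    have h3 : 0 ≤ (1 + b) * v * ((1 + b) * (2 - 3 * v) - 1) := by
      apply mul_nonneg (by positivity)
      nlinarith [mul_nonneg hb (show (0 : ℝ) ≤ 2 - 3 * v by linarith)]
    nlinarith
  have h4 : 2 * (1 + b) ^ 2 * (1 / (1 + v) ^ 2) + 1 ≤
      (4 - 2 * v) * (1 + b) - (3 / 8 * (1 + b + v)) ^ 4 := by
    have h5 : (1 + b) ^ 2 * (1 / (1 + v) ^ 2) ≤ (1 + b) ^ 2 * (1 - 2 * v + 3 * v ^ 2) :=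
      mul_le_mul_of_nonneg_left h1 (by positivity)
    nlinarith
  have h6 : 2 / (1 + v) ^ 2 + 1 / (1 + b) ^ 2 =
      (2 * (1 + b) ^ 2 * (1 / (1 + v) ^ 2) + 1) / (1 + b) ^ 2 := by
    field_simp
  have h7 : (4 - 2 * v - (3 / 8 * (1 + b + v)) ^ 4 / (1 + b)) / (1 + b) =
      ((4 - 2 * v) * (1 + b) - (3 / 8 * (1 + b + v)) ^ 4) / (1 + b) ^ 2 := by
    field_simp
  rw [h6, h7]
  exact div_le_div_of_nonneg_right h4 (by positivity)

theorem finn : FINN := by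
  intro b v y hb hb2 hv hvb hy hyb
  obtain ⟨s, rfl⟩ : ∃ s, y = -s := ⟨-y, by ring⟩
  have hs : 0 ≤ s := by linarith
  have hsb : s ≤ b := by linarith
  have h1v : (0 : ℝ) < 1 + v := by linarith
  have h1b : (0 : ℝ) < 1 + b := by linarith
  set z : ℝ := s / (1 + v) with hz
  set w : ℝ := s / (1 + b) with hw
  have hzs : z * (1 + v) = s := by rw [hz]; field_simp
  have hws : w * (1 + b) = s := by rw [hw]; field_simp
  have hz0 : 0 ≤ z := by positivity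
  have hw0 : 0 ≤ w := by positivity
  have hzb : z ≤ b := by nlinarith
  have hw38 : w ≤ 3 / 8 := by
    rw [hw, div_le_iff₀ h1b]
    linarith
  have hzw : (1 + 5 * b / 8) * w ≤ z := by
    have h1 : (1 + 5 * b / 8) * (1 + v) ≤ 1 + b := by nlinarith
    have h2 : (1 + 5 * b / 8) * w * (1 + v) ≤ z * (1 + v) := by
      rw [hzs, ← hws]
      nlinarith [mul_le_mul_of_nonneg_left h1 hw0]
    exact le_of_mul_le_mul_right h2 h1v
  have hc := cubic b v z w hb hb2 hw0 hw38 hzb hzw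
  have hq := quad b v hb hb2 hv hvb
  have hq2 : 2 * z ^ 2 + w ^ 2 ≤
      (4 - 2 * v - (3 / 8 * (1 + b + v)) ^ 4 / (1 + b)) / (1 + b) * s ^ 2 := by
    have h1 := mul_le_mul_of_nonneg_right hq (sq_nonneg s)
    have h2 : (2 / (1 + v) ^ 2 + 1 / (1 + b) ^ 2) * s ^ 2 = 2 * z ^ 2 + w ^ 2 := by
      rw [hz, hw, div_pow, div_pow]
      ring
    rw [h2] at h1
    exact h1
  have hl1 : Real.log (1 + v - -s) = Real.log (1 + v) + Real.log (1 + z) := by
    rw [← Real.log_mul h1v.ne' (by positivity)]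
    congr 1
    linear_combination -hzs
  have hl2 : Real.log (1 + -s / (1 + b)) = Real.log (1 - w) := by
    congr 1
    rw [hw]
    ring
  have e1 := log0 v hv
  have e2 := log1 z hz0
  have e3 := log2 w hw0 hw38
  have e4 : (-4 / (1 + v) + 2 / (1 + b)) * -s = 4 * z - 2 * w := by
    rw [hz, hw]
    ring
  rw [hl1, hl2, e4, neg_sq]
  linarith

end Pool.W481.HL

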